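import Mathlib
import Pool.Agent.MP_c2bc14_gt.H75.Main

set_option autoImplicit false

universe u

namespace Pool.Agent.Results.MP_c2bc14_gt.CorsonProduct

/-- The Sigma-product of real lines indexed by `κ`, a subspace of the product `κ → ℝ`. -/
def SigmaProd (κ : Type u) : Set (κ → ℝ) := {x | {i : κ | x i ≠ 0}.Countable}

/-- Corson compact: compact and homeomorphic to a subspace of some Sigma-product. -/
def IsCorson (Y : Type u) [TopologicalSpace Y] : Prop :=
  CompactSpace Y ∧ ∃ (κ : Type u) (S : Set (κ → ℝ)), S ⊆ SigmaProd κ ∧ Nonempty (Y ≃ₜ S)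

/-- Splittable over the class of Corson compact spaces. -/
def Splittable (X : Type u) [TopologicalSpace X] : Prop :=
  ∀ A : Set X, ∃ (Y : Type u) (_ : TopologicalSpace Y), IsCorson Y ∧
    ∃ f : X → Y, Continuous f ∧ f ⁻¹' (f '' A) = A

lemma split {X : Type u} [TopologicalSpace X] (h : Splittable X) :
    Pool.Agent.MP_c2bc14_gt.H75.Split X := by
  intro B
  obtain ⟨Y, tY, ⟨_, κ, S, hS, ⟨e⟩⟩, f, hf, hB⟩ := h B
  refine ⟨κ, fun x => (e (f x) : κ → ℝ), continuous_subtype_val.comp (e.continuous.comp hf),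
    fun x => hS (e (f x)).2, ?_⟩
  intro x hx y hy hxy
  apply hy
  rw [← hB]
  exact ⟨x, hx, e.injective (Subtype.ext hxy)⟩

theorem result (X X' : Type u) [TopologicalSpace X] [CompactSpace X] [T2Space X]
    [TopologicalSpace X'] [CompactSpace X'] [T2Space X']
    (hX : Splittable X) (hX' : Splittable X') : Splittable (X × X') := by
  intro A
  obtain ⟨Γ, g, hg, hi, hc⟩ := (split hX).cor
  obtain ⟨Γ', g', hg', hi', hc'⟩ := (split hX').cor
  let e : X × X' → (Γ ⊕ Γ') → ℝ := fun p i => Sum.elim (g p.1) (g' p.2) i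
  have he : Topology.IsEmbedding e := by
    refine (Continuous.isClosedEmbedding ?_ ?_).isEmbedding
    · refine continuous_pi fun i => ?_
      rcases i with i | i
      · exact (continuous_apply i).comp (hg.comp continuous_fst)
      · exact (continuous_apply i).comp (hg'.comp continuous_snd)
    · intro p q hpq
      exact Prod.ext (hi (funext fun i => congrFun hpq (Sum.inl i)))
        (hi' (funext fun i => congrFun hpq (Sum.inr i)))
  refine ⟨X × X', inferInstance, ⟨inferInstance, Γ ⊕ Γ', Set.range e, ?_, ⟨he.toHomeomorph⟩⟩,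
    id, continuous_id, by simp⟩
  rintro _ ⟨p, rfl⟩
  refine Set.Countable.mono
    (s₂ := Sum.inl '' {i | g p.1 i ≠ 0} ∪ Sum.inr '' {i | g' p.2 i ≠ 0}) ?_
    (((hc p.1).image _).union ((hc' p.2).image _))
  rintro (i | i) hi
  · exact Or.inl ⟨i, hi, rfl⟩
  · exact Or.inr ⟨i, hi, rfl⟩

end Pool.Agent.Results.MP_c2bc14_gt.CorsonProduct
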